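import Pool.Agent.Helper74.UB.Goals3

/-! Packet UB-PHIF: the faces of a layout. -/

set_option autoImplicit false

namespace Pool.Agent.Helper77.UB

open Finset Equiv Helper28.VF Pool.Agent.Helper74.UB
open scoped Classical

variable {V : Type} [Fintype V] (L : Lay V)

/-- The labels of the faces. -/
abbrev Lab : Type := {p : V × V // L.up p.1 p.2} ⊕ Bool

/-- The label of the face of `dE v`. -/
noncomputable def gE (v : V) : Lab L :=
  if h : ∃ k, L.up (L.e v) k ∧ ¬ L.up (L.e v) (L.e.symm k) then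
    Sum.inl ⟨(L.e v, h.choose), h.choose_spec.1⟩
  else Sum.inr true

/-- The label of the face of `dN v k`. -/
noncomputable def gN (v k : V) : Lab L :=
  if b : L.up v (L.e k) then Sum.inl ⟨(v, L.e k), b⟩ else gE L v

/-- The label of the face of `dW v`. -/
noncomputable def gW (v : V) : Lab L :=
  if h : ∃ u, L.up u v ∧ ¬ L.up (L.e u) v then gN L h.choose v else Sum.inr false

/-- The label of the face of a dart. -/
noncomputable def gF : DL L → Lab L
  | Sum.inl (v, true) => gE L v
  | Sum.inl (v, false) => gW L v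
  | Sum.inr (p, true) => Sum.inl p
  | Sum.inr (p, false) => gN L p.1.1 p.1.2

variable {L}

theorem gE_low (hL : L.Ax) (v k : V) (a : L.up (L.e v) k) (b : ¬ L.up (L.e v) (L.e.symm k)) :
    gE L v = Sum.inl ⟨(L.e v, k), a⟩ := by
  have h : ∃ k, L.up (L.e v) k ∧ ¬ L.up (L.e v) (L.e.symm k) := ⟨k, a, b⟩
  have hlt : L.row (L.e v) < L.r1 := by
    have h1 := hL.up_row _ _ a
    have h2 := (hL.bnd k).2
    omega
  have huni : h.choose = k := (hL.ul _ hlt).unique h.choose_spec ⟨a, b⟩
  unfold gE
  rw [dif_pos h]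
  have : (⟨(L.e v, h.choose), h.choose_spec.1⟩ : {p : V × V // L.up p.1 p.2}) =
      ⟨(L.e v, k), a⟩ := by
    apply Subtype.ext
    exact Prod.ext rfl huni
  rw [this]

theorem gE_top (hL : L.Ax) (v : V) (h : L.row v = L.r1) : gE L v = Sum.inr true := by
  unfold gE
  rw [dif_neg]
  rintro ⟨k, hk, -⟩
  have h1 := hL.up_row _ _ hk
  have h2 := (hL.bnd k).2
  have h3 := hL.row_e v
  omega

theorem gW_bot (hL : L.Ax) (v : V) (h : L.row v = L.r0) : gW L v = Sum.inr false := by
  unfold gW
  rw [dif_neg]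
  rintro ⟨u, hu, -⟩
  have h1 := hL.up_row _ _ hu
  have h2 := (hL.bnd u).1
  omega

theorem gW_hi (hL : L.Ax) (u v : V) (a : L.up u v) (b : ¬ L.up (L.e u) v) :
    gW L v = gN L u v := by
  have h : ∃ u, L.up u v ∧ ¬ L.up (L.e u) v := ⟨u, a, b⟩
  have hlt : L.r0 < L.row v := by
    have h1 := hL.up_row _ _ a
    have h2 := (hL.bnd u).1
    omega
  have huni : h.choose = u := (hL.dr _ hlt).unique h.choose_spec ⟨a, b⟩
  unfold gW
  rw [dif_pos h, huni]

theorem gN1 (v k : V) (b : L.up v (L.e k)) : gN L v k = Sum.inl ⟨(v, L.e k), b⟩ := by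
  unfold gN
  rw [dif_pos b]

theorem gN2 (v k : V) (b : ¬ L.up v (L.e k)) : gN L v k = gE L v := by
  unfold gN
  rw [dif_neg b]

theorem row_symm (hL : L.Ax) (v : V) : L.row (L.e.symm v) = L.row v := by
  have := hL.row_e (L.e.symm v)
  rw [Equiv.apply_symm_apply] at this
  exact this.symm

/-- The label is constant on faces. -/
theorem gF_phi (hL : L.Ax) (φ : Perm (DL L)) (hφ : IsPhi L φ) (d : DL L) :
    gF L (φ d) = gF L d := by
  rcases d with ⟨v, b⟩ | ⟨⟨⟨v, k⟩, a⟩, b⟩
  · cases b with
    | true =>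
      by_cases h : L.row v = L.r1
      · rw [hφ.E1 v h]
        show gE L (L.e v) = gE L v
        rw [gE_top hL v h, gE_top hL (L.e v) ((hL.row_e v).trans h)]
      · have hlt : L.row (L.e v) < L.r1 := by
          have h1 := (hL.bnd v).2
          have h2 := hL.row_e v
          omega
        obtain ⟨k, ⟨hk1, hk2⟩, -⟩ := hL.ul _ hlt
        rw [hφ.E2 v k hk1 hk2]
        show Sum.inl _ = gE L v
        rw [gE_low hL v k hk1 hk2]
    | false =>
      by_cases h : L.row v = L.r0
      · rw [hφ.W1 v h]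
        show gW L (L.e.symm v) = gW L v
        rw [gW_bot hL v h, gW_bot hL _ ((row_symm hL v).trans h)]
      · have hlt : L.r0 < L.row v := by
          have h1 := (hL.bnd v).1
          omega
        obtain ⟨u, ⟨hu1, hu2⟩, -⟩ := hL.dr _ hlt
        rw [hφ.W2 u v hu1 hu2]
        show gN L u v = gW L v
        rw [gW_hi hL u v hu1 hu2]
  · cases b with
    | false =>
      by_cases h : L.up v (L.e k)
      · rw [hφ.N1 v k a h]
        show Sum.inl _ = gN L v k
        rw [gN1 v k h]
      · rw [hφ.N2 v k a h]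
        show gE L v = gN L v k
        rw [gN2 v k h]
    | true =>
      by_cases h : L.up (L.e.symm v) k
      · rw [hφ.U1 v k a h]
        show gN L (L.e.symm v) k = Sum.inl ⟨(v, k), a⟩
        have c1 : ¬ L.up (L.e.symm v) (L.e k) := by
          intro hc
          have := hL.cross (L.e.symm v) k
          rw [Equiv.apply_symm_apply] at this
          exact this ⟨hc, a⟩
        have c2 : ¬ L.up v (L.e.symm k) := by
          intro hc
          have := hL.cross (L.e.symm v) (L.e.symm k)
          rw [Equiv.apply_symm_apply, Equiv.apply_symm_apply] at this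
          exact this ⟨h, hc⟩
        rw [gN2 _ _ c1]
        have a' : L.up (L.e (L.e.symm v)) k := by rwa [Equiv.apply_symm_apply]
        have b' : ¬ L.up (L.e (L.e.symm v)) (L.e.symm k) := by rwa [Equiv.apply_symm_apply]
        rw [gE_low hL _ k a' b']
        congr 1
        apply Subtype.ext
        exact Prod.ext (L.e.apply_symm_apply v) rfl
      · rw [hφ.U2 v k a h]
        show gW L (L.e.symm k) = Sum.inl ⟨(v, k), a⟩
        by_cases g : L.up v (L.e.symm k)
        · have c1 : ¬ L.up (L.e v) (L.e.symm k) := by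
            intro hc
            have := hL.cross v (L.e.symm k)
            rw [Equiv.apply_symm_apply] at this
            exact this ⟨a, hc⟩
          rw [gW_hi hL v _ g c1]
          have a' : L.up v (L.e (L.e.symm k)) := by rwa [Equiv.apply_symm_apply]
          rw [gN1 v _ a']
          congr 1
          apply Subtype.ext
          exact Prod.ext rfl (L.e.apply_symm_apply k)
        · have w : L.up (L.e.symm v) (L.e.symm k) := by
            rcases hL.west v k a with w | w | w
            · exact absurd w h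
            · exact absurd w g
            · exact w
          have c1 : ¬ L.up (L.e (L.e.symm v)) (L.e.symm k) := by rwa [Equiv.apply_symm_apply]
          rw [gW_hi hL _ _ w c1]
          have c2 : ¬ L.up (L.e.symm v) (L.e (L.e.symm k)) := by rwa [Equiv.apply_symm_apply]
          rw [gN2 _ _ c2]
          have a' : L.up (L.e (L.e.symm v)) k := by rwa [Equiv.apply_symm_apply]
          rw [gE_low hL _ k a' c1]
          congr 1
          apply Subtype.ext
          exact Prod.ext (L.e.apply_symm_apply v) rfl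

theorem gF_zpow (hL : L.Ax) (φ : Perm (DL L)) (hφ : IsPhi L φ) (i : ℤ) (d : DL L) :
    gF L ((φ ^ i) d) = gF L d := by
  induction i using Int.induction_on with
  | zero => rfl
  | succ n ih =>
    rw [add_comm, zpow_add, zpow_one, Perm.mul_apply, gF_phi hL φ hφ, ih]
  | pred n ih =>
    have h1 : φ ((φ ^ (-(n : ℤ) - 1)) d) = (φ ^ (-(n : ℤ))) d := by
      rw [← Perm.mul_apply, ← zpow_one_add]
      congr 2
      ring
    rw [← gF_phi hL φ hφ, h1, ih]

/-- Every dart is on the face of an edge between two rows, or on the top or bottom face. -/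
theorem reach (hL : L.Ax) (φ : Perm (DL L)) (hφ : IsPhi L φ) (d : DL L) :
    (∃ p, gF L d = Sum.inl p ∧ φ.SameCycle d (Sum.inr (p, true))) ∨
    (∃ v, L.row v = L.r1 ∧ d = Sum.inl (v, true) ∧ gF L d = Sum.inr true) ∨
    (∃ v, L.row v = L.r0 ∧ d = Sum.inl (v, false) ∧ gF L d = Sum.inr false) := by
  have hU : ∀ p, ∃ q, gF L (Sum.inr (p, true)) = Sum.inl q ∧
      φ.SameCycle (Sum.inr (p, true)) (Sum.inr (q, true)) :=
    fun p => ⟨p, rfl, Perm.SameCycle.refl _ _⟩
  have step : ∀ d, (∃ q, gF L (φ d) = Sum.inl q ∧ φ.SameCycle (φ d) (Sum.inr (q, true))) →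
      ∃ q, gF L d = Sum.inl q ∧ φ.SameCycle d (Sum.inr (q, true)) := by
    rintro d ⟨q, h1, h2⟩
    exact ⟨q, (gF_phi hL φ hφ d).symm.trans h1, Perm.sameCycle_apply_left.1 h2⟩
  have hE : ∀ v, L.row v ≠ L.r1 → ∃ q, gF L (Sum.inl (v, true)) = Sum.inl q ∧
      φ.SameCycle (Sum.inl (v, true)) (Sum.inr (q, true)) := by
    intro v h
    apply step
    have hlt : L.row (L.e v) < L.r1 := by
      have h1 := (hL.bnd v).2
      have h2 := hL.row_e v
      omega
    obtain ⟨k, ⟨hk1, hk2⟩, -⟩ := hL.ul _ hlt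
    rw [hφ.E2 v k hk1 hk2]
    exact hU _
  have hN : ∀ v k, ∀ a : L.up v k, ∃ q, gF L (Sum.inr (⟨(v, k), a⟩, false)) = Sum.inl q ∧
      φ.SameCycle (Sum.inr (⟨(v, k), a⟩, false)) (Sum.inr (q, true)) := by
    intro v k a
    apply step
    by_cases h : L.up v (L.e k)
    · rw [hφ.N1 v k a h]
      exact hU _
    · rw [hφ.N2 v k a h]
      apply hE
      have h1 := hL.up_row _ _ a
      have h2 := (hL.bnd k).2
      omega
  rcases d with ⟨v, b⟩ | ⟨⟨⟨v, k⟩, a⟩, b⟩
  · cases b with
    | true =>
      by_cases h : L.row v = L.r1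
      · exact Or.inr (Or.inl ⟨v, h, rfl, gE_top hL v h⟩)
      · exact Or.inl (hE v h)
    | false =>
      by_cases h : L.row v = L.r0
      · exact Or.inr (Or.inr ⟨v, h, rfl, gW_bot hL v h⟩)
      · left
        apply step
        have hlt : L.r0 < L.row v := by
          have h1 := (hL.bnd v).1
          omega
        obtain ⟨u, ⟨hu1, hu2⟩, -⟩ := hL.dr _ hlt
        rw [hφ.W2 u v hu1 hu2]
        exact hN _ _ _
  · cases b with
    | true => exact Or.inl (hU _)
    | false => exact Or.inl (hN _ _ _)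

theorem top_cyc (hL : L.Ax) (φ : Perm (DL L)) (hφ : IsPhi L φ) (v : V) (hv : L.row v = L.r1)
    (n : ℕ) : L.row ((L.e)^[n] v) = L.r1 ∧
      φ.SameCycle (Sum.inl (v, true)) (Sum.inl ((L.e)^[n] v, true)) := by
  induction n with
  | zero => exact ⟨hv, Perm.SameCycle.refl _ _⟩
  | succ n ih =>
    rw [Function.iterate_succ_apply']
    refine ⟨(hL.row_e _).trans ih.1, ?_⟩
    rw [← hφ.E1 _ ih.1]
    exact Perm.sameCycle_apply_right.2 ih.2

theorem bot_cyc (hL : L.Ax) (φ : Perm (DL L)) (hφ : IsPhi L φ) (v : V) (hv : L.row v = L.r0)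
    (n : ℕ) : L.row ((L.e)^[n] v) = L.r0 ∧
      φ.SameCycle (Sum.inl (v, false)) (Sum.inl ((L.e)^[n] v, false)) := by
  induction n with
  | zero => exact ⟨hv, Perm.SameCycle.refl _ _⟩
  | succ n ih =>
    rw [Function.iterate_succ_apply']
    have h0 := (hL.row_e ((L.e)^[n] v)).trans ih.1
    refine ⟨h0, ?_⟩
    have h1 := hφ.W1 _ h0
    rw [Equiv.symm_apply_apply] at h1
    have h2 : φ.SameCycle (Sum.inl (v, false)) (φ (Sum.inl (L.e ((L.e)^[n] v), false))) := by
      rw [h1]
      exact ih.2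
    exact Perm.sameCycle_apply_right.1 h2

theorem ex_top (hL : L.Ax) (n : ℕ) : ∀ v : V, (L.r1 - L.row v).toNat = n →
    ∃ w, L.row w = L.r1 := by
  induction n with
  | zero =>
    intro v hv
    have := (hL.bnd v).2
    exact ⟨v, by omega⟩
  | succ n ih =>
    intro v hv
    have hlt : L.row v < L.r1 := by omega
    obtain ⟨k, ⟨hk1, -⟩, -⟩ := hL.ul _ hlt
    have := hL.up_row _ _ hk1
    exact ih k (by omega)

theorem ex_bot (hL : L.Ax) (n : ℕ) : ∀ v : V, (L.row v - L.r0).toNat = n →
    ∃ w, L.row w = L.r0 := by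
  induction n with
  | zero =>
    intro v hv
    have := (hL.bnd v).1
    exact ⟨v, by omega⟩
  | succ n ih =>
    intro v hv
    have hlt : L.r0 < L.row v := by omega
    obtain ⟨k, ⟨hk1, -⟩, -⟩ := hL.dl _ hlt
    have := hL.up_row _ _ hk1
    exact ih k (by omega)

theorem phif : StmtPhiF := by
  intro V _ L hL φ hφ
  refine ⟨gF L, ?_, ?_⟩
  · rintro (p | b)
    · exact ⟨Sum.inr (p, true), rfl⟩
    · obtain ⟨v⟩ := hL.ne
      cases b with
      | true =>
        obtain ⟨w, hw⟩ := ex_top hL _ v rfl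
        exact ⟨Sum.inl (w, true), gE_top hL w hw⟩
      | false =>
        obtain ⟨w, hw⟩ := ex_bot hL _ v rfl
        exact ⟨Sum.inl (w, false), gW_bot hL w hw⟩
  · intro d e
    constructor
    · intro hde
      rcases reach hL φ hφ d with ⟨p, hp1, hp2⟩ | ⟨v, hv1, hv2, hv3⟩ | ⟨v, hv1, hv2, hv3⟩ <;>
      rcases reach hL φ hφ e with ⟨q, hq1, hq2⟩ | ⟨w, hw1, hw2, hw3⟩ | ⟨w, hw1, hw2, hw3⟩
      · rw [hp1, hq1] at hde
        have : p = q := Sum.inl_injective hde
        subst this
        exact hp2.trans hq2.symm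
      · rw [hp1, hw3] at hde
        exact absurd hde (by simp)
      · rw [hp1, hw3] at hde
        exact absurd hde (by simp)
      · rw [hv3, hq1] at hde
        exact absurd hde (by simp)
      · obtain ⟨n, hn⟩ := hL.cyc v w (hv1.trans hw1.symm)
        rw [hv2, hw2, ← hn]
        exact (top_cyc hL φ hφ v hv1 n).2
      · rw [hv3, hw3] at hde
        exact absurd hde (by simp)
      · rw [hv3, hq1] at hde
        exact absurd hde (by simp)
      · rw [hv3, hw3] at hde
        exact absurd hde (by simp)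
      · obtain ⟨n, hn⟩ := hL.cyc v w (hv1.trans hw1.symm)
        rw [hv2, hw2, ← hn]
        exact (bot_cyc hL φ hφ v hv1 n).2
    · rintro ⟨i, rfl⟩
      exact (gF_zpow hL φ hφ i d).symm

end Pool.Agent.Helper77.UB
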